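import Pool.Agent.H81.Final

/-!
# A mapping class orbit whose closure meets the unitary and the quasi-Fuchsian characters

For every genus `g ≥ 2` we exhibit an explicit representation `ρ` of the surface group such that
the closure of the mapping class group orbit of `[ρ]` meets both the set of unitary characters
and the closure of the set of quasi-Fuchsian characters.
-/

set_option autoImplicit false

open scoped MatrixGroups Topology

namespace Pool.Agent.Results.MP_62a77c_gt.OrbitClosure

open Pool.Agent.H81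

/-- The matrix `diag(e^z, e^{-z})`. -/
noncomputable def diagExp (z : ℂ) : SL(2, ℂ) :=
  ⟨!![Complex.exp z, 0; 0, Complex.exp (-z)], by
    rw [Matrix.det_fin_two_of, mul_zero, sub_zero, ← Complex.exp_add, add_neg_cancel,
      Complex.exp_zero]⟩

/-- The matrix `((1, -1/2), (1, 1/2))`. -/
noncomputable def conjMat : SL(2, ℂ) :=
  ⟨!![1, -1 / 2; 1, 1 / 2], by rw [Matrix.det_fin_two_of]; norm_num⟩

/-- The number `τ = ∑_k 2^{-k²} + 2πi ∑_k 2^{-(k²+k)}`. -/
noncomputable def tauNum : ℂ :=
  ((∑' k : ℕ, (1 / 2 : ℝ) ^ (k ^ 2) : ℝ) : ℂ)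
    + 2 * Real.pi * ((∑' k : ℕ, (1 / 2 : ℝ) ^ (k ^ 2 + k) : ℝ) : ℂ) * Complex.I

/-- The image of the generator `a_i`: `diag(e, e⁻¹)` for `i = 0`, its conjugate by `conjMat`
for `i = 1`, and `1` for `i ≥ 2`. -/
noncomputable def imageA (i : ℕ) : SL(2, ℂ) :=
  if i = 0 then diagExp 1 else if i = 1 then conjMat * diagExp 1 * conjMat⁻¹ else 1

/-- The image of the generator `b_i`: `diag(e^τ, e^{-τ})` for `i = 0`, its conjugate by `conjMat`
for `i = 1`, and `1` for `i ≥ 2`. -/
noncomputable def imageB (i : ℕ) : SL(2, ℂ) :=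
  if i = 0 then diagExp tauNum else if i = 1 then conjMat * diagExp tauNum * conjMat⁻¹ else 1

theorem diagExp_one : diagExp 1 = Dh uA := by
  apply Subtype.ext
  show !![Complex.exp 1, 0; 0, Complex.exp (-1)] = !![(uA : ℂ), 0; 0, (uA : ℂ)⁻¹]
  rw [Complex.exp_neg]
  rfl

theorem diagExp_tau : diagExp tauNum = Dh uB := by
  apply Subtype.ext
  show !![Complex.exp tauNum, 0; 0, Complex.exp (-tauNum)] = !![(uB : ℂ), 0; 0, (uB : ℂ)⁻¹]
  rw [Complex.exp_neg]
  rfl

/-- For every genus `g ≥ 2` there is a representation `ρ : π → SL(2,ℂ)`, given explicitly on the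
standard generators, such that the closure of the mapping class group orbit of `[ρ]` meets both
the set of unitary characters and the closure of the set of quasi-Fuchsian characters. -/
theorem result : ∀ g : ℕ, 2 ≤ g → ∃ ρ : SurfaceGroup g →* SL(2, ℂ),
    (∀ i : Fin g, ρ (genA i) = imageA i) ∧ (∀ i : Fin g, ρ (genB i) = imageB i) ∧
    (closure (modOrbit (charPoint ρ)) ∩ unitaryCharacters g).Nonempty ∧
    (closure (modOrbit (charPoint ρ)) ∩ closure (quasiFuchsianCharacters g)).Nonempty := by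
  intro g hg
  obtain ⟨m, rfl⟩ : ∃ m, g = m + 2 := ⟨g - 2, by omega⟩
  refine ⟨repOf (P0 m), ?_, ?_, ?_, ?_⟩
  · apply forall_fin2
    · rw [repOf_genA]
      show Dh uA = imageA 0
      rw [imageA, if_pos rfl, diagExp_one]
    · rw [repOf_genA]
      show k0 * Dh uA * k0⁻¹ = imageA 1
      rw [imageA, if_neg one_ne_zero, if_pos rfl, diagExp_one]
      rfl
    · intro i
      rw [repOf_genA]
      show (1 : SL(2, ℂ)) = imageA (i.succ.succ : Fin (m + 2))
      have h0 : ((i.succ.succ : Fin (m + 2)) : ℕ) ≠ 0 := by simp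
      have h1 : ((i.succ.succ : Fin (m + 2)) : ℕ) ≠ 1 := by simp
      rw [imageA, if_neg h0, if_neg h1]
  · apply forall_fin2
    · rw [repOf_genB]
      show Dh uB = imageB 0
      rw [imageB, if_pos rfl, diagExp_tau]
    · rw [repOf_genB]
      show k0 * Dh uB * k0⁻¹ = imageB 1
      rw [imageB, if_neg one_ne_zero, if_pos rfl, diagExp_tau]
      rfl
    · intro i
      rw [repOf_genB]
      show (1 : SL(2, ℂ)) = imageB (i.succ.succ : Fin (m + 2))
      have h0 : ((i.succ.succ : Fin (m + 2)) : ℕ) ≠ 0 := by simp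
      have h1 : ((i.succ.succ : Fin (m + 2)) : ℕ) ≠ 1 := by simp
      rw [imageB, if_neg h0, if_neg h1]
  · exact ⟨_, reach_one m, one_mem_unitary _⟩
  · exact ⟨_, reach_q m, qRep_mem_closure _⟩

end Pool.Agent.Results.MP_62a77c_gt.OrbitClosure
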